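import Mathlib

set_option autoImplicit false
open Set Function Topology Filter Cardinal

namespace Pool.Agent.Results.MP_0e046d_gt.Extent

/-- the topology of pointwise convergence on the continuous real functions -/
abbrev ptop (X : Type) [TopologicalSpace X] : TopologicalSpace C(X, ℝ) :=
  TopologicalSpace.induced (fun f : C(X, ℝ) => (f : X → ℝ)) Pi.topologicalSpace

/-- the extent -/
noncomputable def extent (X : Type) [TopologicalSpace X] : Cardinal :=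
  Cardinal.aleph0 + ⨆ D : {D : Set X // IsClosed D ∧ DiscreteTopology D}, Cardinal.mk D.1

variable {X Y : Type} {κ : Cardinal}

lemma un (hκ : ℵ₀ ≤ κ) {ι : Type} {s : Set ι} (hs : #s ≤ κ) {f : ι → Set X}
    (h : ∀ i ∈ s, #(f i) ≤ κ) : #(⋃ i ∈ s, f i) ≤ κ :=
  (mk_biUnion_le f s).trans ((mul_le_mul' hs (ciSup_le' fun i : s => h i i.2)).trans_eq
    (mul_eq_self hκ))

lemma big (hκ : ℵ₀ ≤ κ) {A B : Set X} (hA : κ < #A) (hB : #B ≤ κ) : κ < #(A \ B : Set X) := by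
  by_contra hc
  exact hA.not_ge ((mk_le_mk_of_subset (subset_sdiff_union A B)).trans ((mk_union_le _ _).trans
    ((add_le_add (not_lt.1 hc) hB).trans_eq (add_eq_self hκ))))

variable [TopologicalSpace X] [TopologicalSpace Y]

lemma supp {Λ : C(X, ℝ) →ₗ[ℝ] ℝ} (h : @Continuous _ _ (ptop X) _ Λ) :
    ∃ F : Set X, F.Finite ∧ ∀ f : C(X, ℝ), (∀ x ∈ F, f x = 0) → Λ f = 0 := by
  let := ptop X
  obtain ⟨s, hs, hs'⟩ := (mem_nhds_induced _ _ _).1 (h.continuousAt.preimage_mem_nhds (x := 0)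
    (Metric.ball_mem_nhds _ one_pos))
  rw [nhds_pi, Filter.mem_pi] at hs
  obtain ⟨F, h1, t, h2, h3⟩ := hs
  refine ⟨F, h1, fun f hf => ?_⟩
  by_contra hn
  have := hs' (h3 (a := ((Λ f)⁻¹ • f : C(X, ℝ))) fun x hx => by
    simpa [hf x hx] using mem_of_mem_nhds (h2 x))
  simp [hn] at this

lemma sep [T4Space X] (hκ : ℵ₀ ≤ κ) {A₀ : Set X} (hD : ∀ A ⊆ A₀, IsClosed A) (hA : κ < #A₀)
    (x : X → X) (hx : ∀ d, x d ≠ d) : ∃ A ⊆ A₀, κ < #A ∧ Disjoint A (closure (x '' A)) := by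
  by_contra H
  have H : ∀ A ⊆ A₀, κ < #A → ∃ e ∈ A, e ∈ closure (x '' A) := fun A h1 h2 =>
    not_disjoint_iff.1 fun h => H ⟨A, h1, h2, h⟩
  obtain ⟨M, hM⟩ := zorn_subset {M : Set (X × Set X) | (∀ τ ∈ M, insert τ.1 τ.2 ⊆ A₀ ∧ #τ.2 ≤ κ ∧
      τ.1 ∉ τ.2 ∧ τ.1 ∈ closure (x '' τ.2)) ∧
      M.Pairwise fun τ ρ => Disjoint (insert τ.1 τ.2) (insert ρ.1 ρ.2)} fun 𝒞 h1 h2 =>
    ⟨⋃₀ 𝒞, ⟨fun τ ⟨M, hM, hτ⟩ => (h1 hM).1 τ hτ,
      (pairwise_sUnion h2.directedOn).2 fun M hM => (h1 hM).2⟩, fun s hs => subset_sUnion_of_mem hs⟩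
  rcases le_or_gt (#M) κ with hc | hc
  · set A := A₀ \ ⋃ τ ∈ M, insert τ.1 τ.2
    obtain ⟨e, e1, e2⟩ := H A sdiff_subset (big hκ hA (un hκ hc fun τ hτ => mk_insert_le.trans
      ((add_le_add (hM.1.1 τ hτ).2.1 (one_le_aleph0.trans hκ)).trans_eq (add_eq_self hκ))))
    obtain ⟨O, o1, o2, o3⟩ := exists_mem_nhds_isClosed_subset
      ((hD (A₀ \ {e}) sdiff_subset).isOpen_compl.mem_nhds (x := e) fun h => h.2 rfl)
    set P := {d ∈ A | x d ∈ O} \ {e}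
    have p1 : P ⊆ A := fun d hd => hd.1.1
    have p2 : ∀ τ ∈ M, Disjoint (insert e P) (insert τ.1 τ.2) := fun τ hτ =>
      Set.disjoint_left.2 fun d h1 h2 => (insert_subset e1 p1 h1).2 (mem_iUnion₂.2 ⟨τ, hτ, h2⟩)
    have : (e, P) ∈ M := by
      refine hM.2 (y := insert (e, P) M) ⟨?_, hM.1.2.insert fun τ hτ _ =>
        ⟨p2 τ hτ, (p2 τ hτ).symm⟩⟩ (subset_insert _ _) (mem_insert _ _)
      rintro τ (rfl | hτ)
      · refine ⟨(insert_subset e1 p1).trans sdiff_subset, not_lt.1 fun h => ?_, fun h => h.2 rfl,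
          mem_closure_iff_nhds.2 fun U hU => ?_⟩
        · obtain ⟨d, d1, d2⟩ := H P (p1.trans sdiff_subset) h
          exact o3 (closure_minimal (by rintro _ ⟨d, hd, rfl⟩; exact hd.1.2) o2 d2)
            ⟨(p1 d1).1, d1.2⟩
        · obtain ⟨_, h1, d, h2, rfl⟩ := mem_closure_iff_nhds.1 e2 _ (inter_mem (inter_mem hU o1)
            (isOpen_compl_singleton.mem_nhds (hx e).symm))
          exact ⟨_, h1.1.1, d, ⟨⟨h2, h1.1.2⟩, fun h => h1.2 (congrArg x h)⟩, rfl⟩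
      · exact hM.1.1 τ hτ
    exact e1.2 (mem_iUnion₂.2 ⟨_, this, mem_insert _ _⟩)
  · have b1 : (⋃ τ ∈ M, τ.2) ⊆ A₀ := iUnion₂_subset fun τ hτ =>
      (subset_insert _ _).trans (hM.1.1 τ hτ).1
    have k : ∀ τ ∈ M, ∀ ρ ∈ M, ∀ d ∈ insert τ.1 τ.2, d ∈ ρ.2 → τ = ρ := fun τ hτ ρ hρ d h1 h2 => by
      by_contra hn
      exact Set.disjoint_left.1 (hM.1.2 hτ hρ hn) h1 (Or.inr h2)
    obtain ⟨f, f0, f1, -⟩ := exists_continuous_zero_one_of_isClosed (hD (Prod.fst '' M) (by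
      rintro _ ⟨τ, hτ, rfl⟩; exact (hM.1.1 τ hτ).1 (mem_insert _ _))) (hD _ b1)
      (Set.disjoint_left.2 (by
        rintro _ ⟨τ, hτ, rfl⟩ h
        obtain ⟨ρ, hρ, h⟩ := mem_iUnion₂.1 h
        exact (hM.1.1 τ hτ).2.2.1 (k τ hτ ρ hρ _ (mem_insert _ _) h ▸ h)))
    have : ∀ τ : M, ∃ d : {d ∈ ⋃ τ ∈ M, τ.2 | f (x d) ≤ 1 / 2}, d.1 ∈ τ.1.2 := fun τ => by
      obtain ⟨_, h1, d, h2, rfl⟩ := mem_closure_iff.1 (hM.1.1 τ τ.2).2.2.2 _
        (isOpen_lt f.continuous (continuous_const (y := 1 / 2))) (by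
          simp [f0 (mem_image_of_mem Prod.fst τ.2)])
      exact ⟨⟨d, mem_iUnion₂.2 ⟨τ, τ.2, h2⟩, le_of_lt h1⟩, h2⟩
    choose d hd using this
    obtain ⟨e, e1, e2⟩ := H _ ((sep_subset _ _).trans b1) (hc.trans_le (mk_le_of_injective (f := d)
      fun τ ρ h => Subtype.ext (k τ τ.2 ρ ρ.2 _ (Or.inr (hd τ)) (h ▸ hd ρ))))
    have := closure_minimal (t := {z | f z ≤ 1 / 2}) (by rintro _ ⟨d, hd, rfl⟩; exact hd.2)
      (isClosed_le f.continuous continuous_const) e2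
    rw [mem_ofPred_eq, f1 e1.1] at this
    norm_num at this

lemma sepn [T4Space X] (hκ : ℵ₀ ≤ κ) {A₀ : Set X} (hD : ∀ A ⊆ A₀, IsClosed A) (hA : κ < #A₀)
    (x : ℕ → X → X) (hx : ∀ i d, x i d ≠ d) (n : ℕ) :
    ∃ A ⊆ A₀, κ < #A ∧ ∀ i < n, Disjoint A (closure (x i '' A)) := by
  induction n with
  | zero => exact ⟨A₀, Subset.rfl, hA, by simp⟩
  | succ n ih =>
    obtain ⟨A, h1, h2, h3⟩ := ih
    obtain ⟨B, h4, h5, h6⟩ := sep hκ (fun B hB => hD B (hB.trans h1)) h2 (x n) (hx n)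
    refine ⟨B, h4.trans h1, h5, fun i hi => ?_⟩
    rcases (Nat.lt_succ_iff.1 hi).lt_or_eq with h | rfl
    · exact (h3 i h).mono h4 (closure_mono (image_mono h4))
    · exact h6

lemma main [T4Space X] [T1Space Y] (T : C(X, ℝ) ≃ₗ[ℝ] C(Y, ℝ))
    (h1 : @Continuous _ _ (ptop X) (ptop Y) T) (h2 : @Continuous _ _ (ptop Y) (ptop X) T.symm)
    (hκ : ℵ₀ ≤ κ) {D : Set X} (hD : ∀ A ⊆ D, IsClosed A) (hA : κ < #D) :
    ∃ E : Set Y, (IsClosed E ∧ DiscreteTopology E) ∧ κ < #E := by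
  classical
  choose F f1 f2 using fun y : Y => supp (Λ := (ContinuousMap.evalCLM ℝ y).toLinearMap ∘ₗ
    T.toLinearMap) (@Continuous.comp _ _ _ (ptop X) (ptop Y) _ _ _ (@Continuous.comp _ _ _ (ptop Y)
      _ _ _ _ (continuous_apply y) continuous_induced_dom) h1)
  choose G g1 g2 using fun x : X => supp (Λ := (ContinuousMap.evalCLM ℝ x).toLinearMap ∘ₗ
    T.symm.toLinearMap) (@Continuous.comp _ _ _ (ptop Y) (ptop X) _ _ _ (@Continuous.comp _ _ _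
      (ptop X) _ _ _ _ (continuous_apply x) continuous_induced_dom) h2)
  replace f2 : ∀ y (f : C(X, ℝ)), (∀ x ∈ F y, f x = 0) → T f y = 0 := f2
  replace g2 : ∀ x (g : C(Y, ℝ)), (∀ y ∈ G x, g y = 0) → T.symm g x = 0 := g2
  obtain ⟨a, -, b, -, hab⟩ : D.Nontrivial := by
    rw [← nontrivial_coe_sort, ← one_lt_iff_nontrivial]
    exact (one_le_aleph0.trans hκ).trans_lt hA
  have : ∀ d : X, ∃ (y : Y) (c : ℕ × ℕ) (x : ℕ → X), d ∈ F y ∧ (∀ i, x i ≠ d) ∧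
      ∀ f : C(X, ℝ), f d = 1 → (∀ i < c.1, f (x i) = 0) → 1 / ((c.2 : ℝ) + 1) < |T f y| := by
    intro d
    obtain ⟨f, f0, f1', -⟩ := exists_continuous_zero_one_of_isClosed
      (((g1 d).biUnion fun y _ => f1 y).subset (sdiff_subset (t := {d}))).isClosed
      isClosed_singleton (Set.disjoint_singleton_right.2 fun h => h.2 rfl)
    obtain ⟨y, y1, y2⟩ : ∃ y ∈ G d, T f y ≠ 0 := by
      by_contra hc
      push Not at hc
      simpa [f1' (mem_singleton d)] using g2 d _ hc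
    have f3 : ∀ z ∈ F y, z ≠ d → f z = 0 := fun z hz e => f0 ⟨mem_iUnion₂.2 ⟨y, y1, hz⟩, e⟩
    obtain ⟨n, x, -, hx⟩ := ((f1 y).subset (sdiff_subset (t := {d}))).fin_param
    obtain ⟨m, hm⟩ := exists_nat_one_div_lt (abs_pos.2 y2)
    refine ⟨y, (n, m), fun i => if h : i < n then x ⟨i, h⟩ else if a = d then b else a, ?_,
      fun i => ?_, fun g e1 e2 => ?_⟩
    · by_contra hn
      exact y2 (f2 y f fun z hz => f3 z hz fun e => hn (e ▸ hz))
    · simp only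
      split_ifs with h h'
      · exact (hx.le (mem_range_self _)).2
      · exact h' ▸ hab.symm
      · exact h'
    · have := f2 y (g - f) fun z hz => by
        by_cases e : z = d
        · simp [e, e1, f1' (mem_singleton d)]
        · obtain ⟨i, rfl⟩ := hx.ge ⟨hz, e⟩
          simpa [f3 _ hz e] using e2 i i.2
      rw [map_sub, ContinuousMap.sub_apply, sub_eq_zero] at this
      rwa [this]
  choose y c x k1 k2 k3 using this
  obtain ⟨c₀, hc⟩ : ∃ c₀, κ < #{d ∈ D | c d = c₀} := by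
    by_contra hn
    push Not at hn
    refine hA.not_ge ((mk_le_mk_of_subset fun d hd => ?_).trans
      (un hκ (s := univ) (mk_le_aleph0.trans hκ) fun i _ => hn i))
    exact mem_iUnion₂.2 ⟨c d, mem_univ _, hd, rfl⟩
  obtain ⟨A, a1, a2, a3⟩ := sepn hκ (fun A h => hD A (h.trans (sep_subset _ _))) hc
    (fun i d => x d i) (fun i d => k2 d i) c₀.1
  have key : ∀ z : Y, ∃ U ∈ 𝓝 z, (U ∩ y '' A).Finite := fun z => by
    obtain ⟨f, f0, f1', -⟩ := exists_continuous_zero_one_of_isClosed ((f1 z).isClosed.union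
      ((finite_Iio c₀.1).isClosed_biUnion fun i _ => isClosed_closure (s := (x · i) '' A)))
      (hD (A \ F z) fun d hd => (a1 hd.1).1) (Set.disjoint_left.2 fun d h h' => h.elim h'.2
        fun h => by
          obtain ⟨i, hi, h⟩ := mem_iUnion₂.1 h
          exact Set.disjoint_left.1 (a3 i hi) h'.1 h)
    refine ⟨_, (isOpen_lt (T f).continuous.abs (continuous_const (y := 1 / ((c₀.2 : ℝ) + 1)))).mem_nhds
      (by simpa [f2 z f fun w hw => f0 (Or.inl hw)] using Nat.cast_add_one_pos (α := ℝ) c₀.2),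
      ((f1 z).image y).subset ?_⟩
    rintro _ ⟨h, d, hd, rfl⟩
    refine ⟨d, not_not.1 fun hn => lt_asymm (show |T f (y d)| < _ from h) ?_, rfl⟩
    rw [← (a1 hd).2]
    exact k3 d f (f1' ⟨hd, hn⟩) fun i hi => f0 (Or.inr (mem_iUnion₂.2
      ⟨i, (a1 hd).2 ▸ hi, subset_closure ⟨d, hd, rfl⟩⟩))
  refine ⟨y '' A, ?_, not_le.1 fun hn => a2.not_ge ((mk_le_mk_of_subset fun d hd =>
    mem_iUnion₂.2 ⟨y d, ⟨d, hd, rfl⟩, k1 d⟩).trans (un hκ hn fun z _ =>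
      (f1 z).lt_aleph0.le.trans hκ))⟩
  rw [← isDiscrete_iff_discreteTopology, isClosed_and_discrete_iff]
  intro z
  obtain ⟨U, u1, u2⟩ := key z
  refine disjoint_principal_right.2 ?_
  filter_upwards [nhdsWithin_le_nhds u1, nhdsWithin_le_nhds ((u2.subset
    (sdiff_subset (t := {z}))).isClosed.isOpen_compl.mem_nhds (x := z) fun h => h.2 rfl),
    self_mem_nhdsWithin] with w w1 w2 w3 w4 using w2 ⟨⟨w1, w4⟩, w3⟩

lemma le [T4Space X] [T1Space Y] (T : C(X, ℝ) ≃ₗ[ℝ] C(Y, ℝ))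
    (h1 : @Continuous _ _ (ptop X) (ptop Y) T) (h2 : @Continuous _ _ (ptop Y) (ptop X) T.symm) :
    extent X ≤ extent Y := by
  have h0 : ℵ₀ ≤ extent Y := self_le_add_right _ _
  refine (add_le_add h0 (ciSup_le' fun D => not_lt.1 fun h => ?_)).trans_eq (add_eq_self h0)
  have := D.2.2
  obtain ⟨E, e1, e2⟩ := main T h1 h2 h0 (fun A hA => by
    rw [← inter_eq_self_of_subset_right hA, ← Subtype.image_preimage_coe]
    exact D.2.1.isClosedMap_subtype_val _ (isClosed_discrete _)) h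
  exact e2.not_ge ((le_ciSup (f := fun D : {D : Set Y // IsClosed D ∧ DiscreteTopology D} =>
    #D.1) bddAbove_of_small ⟨E, e1⟩).trans (self_le_add_left _ _))

theorem result (X Y : Type) [TopologicalSpace X] [T35Space X] [NormalSpace X]
    [TopologicalSpace Y] [T35Space Y] [NormalSpace Y] (T : C(X, ℝ) ≃ₗ[ℝ] C(Y, ℝ))
    (h1 : @Continuous _ _ (ptop X) (ptop Y) T) (h2 : @Continuous _ _ (ptop Y) (ptop X) T.symm) :
    extent X = extent Y :=
  haveI : T4Space X := {}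
  haveI : T4Space Y := {}
  (le T h1 h2).antisymm (le T.symm h2 h1)

end Pool.Agent.Results.MP_0e046d_gt.Extent
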